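import Pool.Agent.H56.DC.Defs

/-!
# The Deligne complex is simply connected

The Artin group acts from the right on the pairs `(a, q)`, `q` a homotopy class of paths from `1` to the cell `a`: the
generator `σ_i` adds the two steps `a, a ⟨σ_i⟩, a σ_i`.  The braid relation holds since both words stay in the star of the
point `a ⟨σ_i, σ_j⟩`.
-/

set_option autoImplicit false

namespace Pool.Agent.H56.DC

open Pool.Agent.H52.PAG Pool.Agent.H54.CX Cls DV

variable {B : Type} {M : CoxeterMatrix B}

/-- the base vertex -/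
def oo (M : CoxeterMatrix B) : DV M := ce 1

/-- the class of a vertex -/
noncomputable def pp (v : DV M) : Cls (dcx M) := Cls.pt (dcx M) v

theorem mk_mul_gen (a : Art M) {T : Set B} {i : B} (h : i ∈ T) :
    (QuotientGroup.mk (a * gen M i) : Art M ⧸ par M T) = QuotientGroup.mk a := by
  rw [QuotientGroup.mk_mul_of_mem]
  exact gen_mem h

theorem mk_mul_gen_inv (a : Art M) {T : Set B} {i : B} (h : i ∈ T) :
    (QuotientGroup.mk (a * (gen M i)⁻¹) : Art M ⧸ par M T) = QuotientGroup.mk a := by
  rw [QuotientGroup.mk_mul_of_mem]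
  exact inv_mem (gen_mem h)

/-- the hyperedge of a cell -/
def hc (a : Art M) (i : B) : DV M := hy i (QuotientGroup.mk a)

theorem hc_mul_gen (a : Art M) (i : B) : hc (a * gen M i) i = hc a i :=
  congrArg (hy i) (mk_mul_gen a (Set.mem_singleton i))

theorem hc_mul_gen_inv (a : Art M) (i : B) : hc (a * (gen M i)⁻¹) i = hc a i :=
  congrArg (hy i) (mk_mul_gen_inv a (Set.mem_singleton i))

theorem adj_ce_hc (a : Art M) (i : B) : (dcx M).Edge (ce a) (hc a i) := Or.inl rfl

theorem inc_hc_pt {a : Art M} {i : B} {T : Pr M} (h : i ∈ T.1) :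
    (dcx M).Edge (hc a i) (pt T (QuotientGroup.mk a)) := Or.inl ⟨h, a, rfl, rfl⟩

theorem inc_ce_pt (a : Art M) (T : Pr M) : (dcx M).Edge (ce a) (pt T (QuotientGroup.mk a)) :=
  Or.inl rfl

/-- paths from the base vertex to a cell -/
def PS (M : CoxeterMatrix B) : Type :=
  {p : Art M × Cls (dcx M) // PC (dcx M) (oo M) (ce p.1) p.2}

/-- the step along the hyperedge `i` from the cell `a` to the cell `b` -/
noncomputable def stp (i : B) (b : Art M) (a : Art M) (q : Cls (dcx M)) : Cls (dcx M) :=
  q * pp (hc a i) * pp (ce b)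

theorem stp_pc {i : B} {a b : Art M} (h : hc b i = hc a i) {q : Cls (dcx M)}
    (hq : PC (dcx M) (oo M) (ce a) q) : PC (dcx M) (oo M) (ce b) (stp i b a q) := by
  refine (hq.step (Or.inr (adj_ce_hc a i))).step (Or.inr ?_)
  rw [← h]
  exact (dcx M).symm _ _ (adj_ce_hc b i)

/-- going and coming back -/
theorem stp_stp {i : B} {a b : Art M} (h : hc b i = hc a i) {q : Cls (dcx M)}
    (hq : PC (dcx M) (oo M) (ce a) q) : stp i a b (stp i b a q) = q := by
  unfold stp
  rw [h]
  have h1 : pp (hc a i) * pp (ce b) * pp (hc a i) = pp (hc a i) := by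
    rw [← h]
    exact Cls.back ((dcx M).symm _ _ (adj_ce_hc b i))
  calc q * pp (hc a i) * pp (ce b) * pp (hc a i) * pp (ce a)
      = q * (pp (hc a i) * pp (ce b) * pp (hc a i)) * pp (ce a) := by simp only [mul_assoc]
    _ = q * pp (hc a i) * pp (ce a) := by rw [h1]
    _ = q := hq.step_back (Or.inr (adj_ce_hc a i))

/-- a step does not change the class of the path continued to a point of the hyperedge -/
theorem stp_pt {i : B} {T : Pr M} (hi : i ∈ T.1) {a b : Art M} (h : hc b i = hc a i)
    (hT : (QuotientGroup.mk b : Art M ⧸ par M T.1) = QuotientGroup.mk a) {q : Cls (dcx M)}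
    (hq : PC (dcx M) (oo M) (ce a) q) :
    stp i b a q * pp (pt T (QuotientGroup.mk a)) = q * pp (pt T (QuotientGroup.mk a)) := by
  unfold stp
  have h1 : pp (hc a i) * pp (ce b) * pp (pt T (QuotientGroup.mk a)) =
      pp (hc a i) * pp (pt T (QuotientGroup.mk a)) := by
    refine Cls.tri ⟨?_, ?_, inc_hc_pt hi⟩
    · rw [← h]
      exact (adj_ce_hc b i).symm
    · rw [← hT]
      exact inc_ce_pt b T
  have h2 : pp (ce a) * pp (hc a i) * pp (pt T (QuotientGroup.mk a)) =
      pp (ce a) * pp (pt T (QuotientGroup.mk a)) :=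
    Cls.tri ⟨adj_ce_hc a i, inc_hc_pt hi, inc_ce_pt a T⟩
  have h3 : q * pp (ce a) = q := hq.mul_pt
  calc q * pp (hc a i) * pp (ce b) * pp (pt T (QuotientGroup.mk a))
      = q * (pp (hc a i) * pp (ce b) * pp (pt T (QuotientGroup.mk a))) := by
        simp only [mul_assoc]
    _ = q * pp (ce a) * (pp (hc a i) * pp (pt T (QuotientGroup.mk a))) := by rw [h1, h3]
    _ = q * (pp (ce a) * pp (hc a i) * pp (pt T (QuotientGroup.mk a))) := by
        simp only [mul_assoc]
    _ = q * pp (ce a) * pp (pt T (QuotientGroup.mk a)) := by rw [h2, ← mul_assoc]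
    _ = q * pp (pt T (QuotientGroup.mk a)) := by rw [h3]

/-- the permutation of a generator -/
noncomputable def prm (i : B) : Equiv.Perm (PS M) where
  toFun p := ⟨(p.1.1 * gen M i, stp i (p.1.1 * gen M i) p.1.1 p.1.2), stp_pc (hc_mul_gen _ _) p.2⟩
  invFun p := ⟨(p.1.1 * (gen M i)⁻¹, stp i (p.1.1 * (gen M i)⁻¹) p.1.1 p.1.2),
    stp_pc (hc_mul_gen_inv _ _) p.2⟩
  left_inv p := by
    obtain ⟨⟨a, q⟩, hq⟩ := p
    apply Subtype.ext
    have e : a * gen M i * (gen M i)⁻¹ = a := mul_inv_cancel_right _ _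
    show (a * gen M i * (gen M i)⁻¹, stp i (a * gen M i * (gen M i)⁻¹) (a * gen M i)
      (stp i (a * gen M i) a q)) = (a, q)
    rw [e, stp_stp (hc_mul_gen _ _) hq]
  right_inv p := by
    obtain ⟨⟨a, q⟩, hq⟩ := p
    apply Subtype.ext
    have e : a * (gen M i)⁻¹ * gen M i = a := inv_mul_cancel_right _ _
    show (a * (gen M i)⁻¹ * gen M i, stp i (a * (gen M i)⁻¹ * gen M i) (a * (gen M i)⁻¹)
      (stp i (a * (gen M i)⁻¹) a q)) = (a, q)
    rw [e, stp_stp (hc_mul_gen_inv _ _) hq]

/-- alternating words in the star of a point -/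
theorem alt_star (T : Pr M) {i j : B} (hi : i ∈ T.1) (hj : j ∈ T.1) (n : ℕ) (p : PS M) :
    ((MulOpposite.unop (alt (MulOpposite.op (prm i)) (MulOpposite.op (prm j)) n) : Equiv.Perm (PS M)) p).1.1 =
        p.1.1 * alt (gen M i) (gen M j) n ∧
      ((MulOpposite.unop (alt (MulOpposite.op (prm i)) (MulOpposite.op (prm j)) n) : Equiv.Perm (PS M)) p).1.2 *
        pp (pt T (QuotientGroup.mk p.1.1)) = p.1.2 * pp (pt T (QuotientGroup.mk p.1.1)) := by
  induction n generalizing i j p with
  | zero => exact ⟨(mul_one _).symm, rfl⟩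
  | succ n ih =>
    obtain ⟨h1, h2⟩ := ih hj hi (prm i p)
    have e1 : (MulOpposite.unop (alt (MulOpposite.op (prm i)) (MulOpposite.op (prm j)) (n + 1)) :
        Equiv.Perm (PS M)) p =
        (MulOpposite.unop (alt (MulOpposite.op (prm j)) (MulOpposite.op (prm i)) n) : Equiv.Perm (PS M))
          (prm i p) := rfl
    have e2 : (prm i p).1.1 = p.1.1 * gen M i := rfl
    have e3 : (prm i p).1.2 = stp i (p.1.1 * gen M i) p.1.1 p.1.2 := rfl
    rw [e1]
    refine ⟨?_, ?_⟩
    · rw [h1, e2]
      simp only [alt, mul_assoc]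
    · have e4 : (QuotientGroup.mk (prm i p).1.1 : Art M ⧸ par M T.1) = QuotientGroup.mk p.1.1 :=
        mk_mul_gen _ hi
      rw [e4] at h2
      rw [h2, e3]
      exact stp_pt hi (hc_mul_gen _ _) (mk_mul_gen _ hi) p.2

theorem mem_pair {i j : B} : i ∈ ({i, j} : Set B) ∧ j ∈ ({i, j} : Set B) := by simp

theorem prm_rel {i j : B} (hM : M i j ≠ 0) :
    alt (MulOpposite.op (prm (M := M) i)) (MulOpposite.op (prm j)) (M i j) =
      alt (MulOpposite.op (prm j)) (MulOpposite.op (prm i)) (M i j) := by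
  rcases eq_or_ne i j with rfl | hij
  · rfl
  apply MulOpposite.unop_injective
  ext1 p
  let T : Pr M := ⟨{i, j}, i, j, hij, hM, rfl⟩
  obtain ⟨h1, h2⟩ := alt_star T (i := i) (j := j) mem_pair.1 mem_pair.2 (M i j) p
  obtain ⟨h3, h4⟩ := alt_star T (i := j) (j := i) mem_pair.2 mem_pair.1 (M i j) p
  generalize (MulOpposite.unop (alt (MulOpposite.op (prm (M := M) i)) (MulOpposite.op (prm j)) (M i j)) :
    Equiv.Perm (PS M)) p = u at *
  generalize (MulOpposite.unop (alt (MulOpposite.op (prm (M := M) j)) (MulOpposite.op (prm i)) (M i j)) :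
    Equiv.Perm (PS M)) p = v at *
  obtain ⟨⟨a, q⟩, hq⟩ := u
  obtain ⟨⟨b, r⟩, hr⟩ := v
  have e : a = b := by
    have h1' : a = p.1.1 * alt (gen M i) (gen M j) (M i j) := h1
    have h3' : b = p.1.1 * alt (gen M j) (gen M i) (M i j) := h3
    rw [h1', h3', gen_rel hM]
  subst e
  have hm : (QuotientGroup.mk a : Art M ⧸ par M T.1) = QuotientGroup.mk p.1.1 := by
    have h1' : a = p.1.1 * alt (gen M i) (gen M j) (M i j) := h1
    rw [h1', QuotientGroup.mk_mul_of_mem]
    have key : ∀ (n : ℕ) (x y : B), x ∈ T.1 → y ∈ T.1 →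
        alt (gen M x) (gen M y) n ∈ par M T.1 := by
      intro n
      induction n with
      | zero => intro x y _ _; exact one_mem _
      | succ n ih => intro x y hx hy; exact mul_mem (gen_mem hx) (ih y x hy hx)
    exact key _ _ _ mem_pair.1 mem_pair.2
  have h5 : (dcx M).Near (ce a) (pt T (QuotientGroup.mk p.1.1)) := by
    rw [← hm]
    exact Or.inr (inc_ce_pt a T)
  have h6 : q = r := by
    have h7 : q * pp (pt T (QuotientGroup.mk p.1.1)) * pp (ce a) = q := hq.step_back h5
    have h8 : r * pp (pt T (QuotientGroup.mk p.1.1)) * pp (ce a) = r := hr.step_back h5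
    rw [← h7, ← h8]
    have h2' : q * pp (pt T (QuotientGroup.mk p.1.1)) = p.1.2 * pp (pt T (QuotientGroup.mk p.1.1)) := h2
    have h4' : r * pp (pt T (QuotientGroup.mk p.1.1)) = p.1.2 * pp (pt T (QuotientGroup.mk p.1.1)) := h4
    rw [h2', h4']
  subst h6
  rfl

/-- the action of the Artin group on the paths -/
noncomputable def act (M : CoxeterMatrix B) : Art M →* (Equiv.Perm (PS M))ᵐᵒᵖ :=
  lift (fun i => MulOpposite.op (prm i)) fun _ _ h => prm_rel h

/-- the path of an element -/
noncomputable def cp (x : Art M) : PS M := (MulOpposite.unop (act M x)) ⟨(1, pp (oo M)), PC.base⟩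

theorem cp_one : cp (1 : Art M) = ⟨(1, pp (oo M)), PC.base⟩ := by
  rw [cp, map_one]
  rfl

theorem cp_mul_gen (x : Art M) (i : B) : cp (x * gen M i) = prm i (cp x) := by
  rw [cp, map_mul]
  have : act M (gen M i) = MulOpposite.op (prm i) := lift_gen _ _ i
  rw [this]
  rfl

theorem cp_fst (x : Art M) : (cp x).1.1 = x := by
  induction x using art_induction with
  | h1 => rw [cp_one]
  | h2 x i h =>
    rw [cp_mul_gen]
    show (cp x).1.1 * gen M i = _
    rw [h]
  | h3 x i h =>
    have h1 := cp_mul_gen (x * (gen M i)⁻¹) i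
    rw [inv_mul_cancel_right] at h1
    rw [h1] at h
    have h2 : (cp (x * (gen M i)⁻¹)).1.1 * gen M i = x := h
    rw [eq_mul_inv_iff_mul_eq]
    exact h2

/-- the class of the path of an element -/
noncomputable def cq (x : Art M) : Cls (dcx M) := (cp x).1.2

theorem cq_pc (x : Art M) : PC (dcx M) (oo M) (ce x) (cq x) := by
  have := (cp x).2
  rw [cp_fst] at this
  exact this

theorem cq_mul_gen (x : Art M) (i : B) : cq (x * gen M i) = stp i (x * gen M i) x (cq x) := by
  rw [cq, cp_mul_gen]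
  show stp i ((cp x).1.1 * gen M i) (cp x).1.1 (cp x).1.2 = _
  rw [cp_fst]
  rfl

/-- the coset `v` contains `x` -/
def Mem (x : Art M) (v : DV M) : Prop := v = ce x ∨ Inc (ce x) v

theorem exists_mem (v : DV M) : ∃ x, Mem x v := by
  cases v with
  | ce a => exact ⟨a, Or.inl rfl⟩
  | hy i y =>
    obtain ⟨a, rfl⟩ := QuotientGroup.mk_surjective y
    exact ⟨a, Or.inr rfl⟩
  | pt T y =>
    obtain ⟨a, rfl⟩ := QuotientGroup.mk_surjective y
    exact ⟨a, Or.inr rfl⟩

theorem near_of_mem {x : Art M} {v : DV M} (h : Mem x v) : (dcx M).Near (ce x) v := by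
  rcases h with h | h
  · exact Or.inl h.symm
  · exact Or.inr (Or.inl h)

theorem cq_hy_gen (x : Art M) (i : B) : cq (x * gen M i) * pp (hc x i) = cq x * pp (hc x i) := by
  rw [cq_mul_gen, stp]
  have h1 : pp (hc x i) * pp (ce (x * gen M i)) * pp (hc x i) = pp (hc x i) := by
    rw [← hc_mul_gen]
    exact Cls.back ((dcx M).symm _ _ (adj_ce_hc _ i))
  calc cq x * pp (hc x i) * pp (ce (x * gen M i)) * pp (hc x i)
      = cq x * (pp (hc x i) * pp (ce (x * gen M i)) * pp (hc x i)) := by simp only [mul_assoc]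
    _ = cq x * pp (hc x i) := by rw [h1]

theorem cq_pt_gen (x : Art M) (T : Pr M) {i : B} (hi : i ∈ T.1) :
    cq (x * gen M i) * pp (pt T (QuotientGroup.mk x)) = cq x * pp (pt T (QuotientGroup.mk x)) := by
  rw [cq_mul_gen]
  exact stp_pt hi (hc_mul_gen _ _) (mk_mul_gen _ hi) (cq_pc x)

/-- general form of the independence -/
theorem cq_par {T : Set B} (f : Art M ⧸ par M T → DV M)
    (h : ∀ x : Art M, ∀ i ∈ T, cq (x * gen M i) * pp (f (QuotientGroup.mk x)) =
      cq x * pp (f (QuotientGroup.mk x))) {x y : Art M}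
    (hxy : (QuotientGroup.mk x : Art M ⧸ par M T) = QuotientGroup.mk y) :
    cq x * pp (f (QuotientGroup.mk x)) = cq y * pp (f (QuotientGroup.mk x)) := by
  have h1 : x⁻¹ * y ∈ par M T := QuotientGroup.eq.1 hxy
  obtain ⟨w, rfl⟩ : ∃ w, y = x * w := ⟨x⁻¹ * y, by group⟩
  rw [inv_mul_cancel_left] at h1
  have key : ∀ w, w ∈ Subgroup.closure (gen M '' T) →
      cq x * pp (f (QuotientGroup.mk x)) = cq (x * w) * pp (f (QuotientGroup.mk x)) ∧
        (QuotientGroup.mk (x * w) : Art M ⧸ par M T) = QuotientGroup.mk x := by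
    intro w hw
    induction hw using Subgroup.closure_induction_right with
    | one => exact ⟨by rw [mul_one], by rw [mul_one]⟩
    | mul_right w hw y hy ih =>
      obtain ⟨i, hi, rfl⟩ := hy
      refine ⟨?_, ?_⟩
      · rw [ih.1, ← ih.2, ← mul_assoc, h _ i hi]
      · rw [← mul_assoc, mk_mul_gen _ hi, ih.2]
    | mul_inv_cancel w hw y hy ih =>
      obtain ⟨i, hi, rfl⟩ := hy
      have e : (QuotientGroup.mk (x * (w * (gen M i)⁻¹)) : Art M ⧸ par M T) = QuotientGroup.mk x := by
        rw [← mul_assoc, mk_mul_gen_inv _ hi, ih.2]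
      refine ⟨?_, e⟩
      have h2 := h (x * (w * (gen M i)⁻¹)) i hi
      rw [e] at h2
      rw [← h2, ih.1]
      congr 2
      group
  exact (key w h1).1

theorem cq_indep {x y : Art M} {v : DV M} (hx : Mem x v) (hy : Mem y v) :
    cq x * pp v = cq y * pp v := by
  cases v with
  | ce a =>
    rcases hx with hx | hx
    · rcases hy with hy | hy
      · have : ce x = ce (M := M) y := hx.symm.trans hy
        injection this with this
        rw [this]
      · exact hy.elim
    · exact hx.elim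
  | hy i z =>
    rcases hx with hx | hx
    · cases hx
    rcases hy with hy | hy
    · cases hy
    have hx : z = QuotientGroup.mk x := hx
    have hy : z = QuotientGroup.mk y := hy
    subst hx
    refine cq_par (fun z => DV.hy i z) ?_ hy
    intro x j hj
    have hj : j = i := hj
    subst hj
    exact cq_hy_gen x j
  | pt T z =>
    rcases hx with hx | hx
    · cases hx
    rcases hy with hy | hy
    · cases hy
    have hx : z = QuotientGroup.mk x := hx
    have hy : z = QuotientGroup.mk y := hy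
    subst hx
    refine cq_par (fun z => DV.pt T z) ?_ hy
    intro x j hj
    exact cq_pt_gen x T hj

/-- adjacent vertices have a common element -/
theorem exists_common {u v : DV M} (h : Inc u v) : ∃ x, Mem x u ∧ Mem x v := by
  cases u with
  | ce a => exact ⟨a, Or.inl rfl, Or.inr h⟩
  | hy i y =>
    cases v with
    | ce b => exact h.elim
    | hy j z => exact h.elim
    | pt T z =>
      obtain ⟨-, a, h1, h2⟩ := h
      exact ⟨a, Or.inr h1, Or.inr h2⟩
  | pt T y => cases v <;> exact h.elim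

/-- one step -/
theorem cq_step {x : Art M} {u v : DV M} (hu : Mem x u) (hv : Mem x v) (h : (dcx M).Near u v) :
    cq x * pp u * pp v = cq x * pp v := by
  have h0 : cq x * pp (ce x) = cq x := (cq_pc x).mul_pt
  rcases h with h | h
  · rw [h, mul_assoc]
    congr 1
    exact Cls.stay v
  · rcases hu with rfl | hu
    · rw [h0]
    · rcases hv with rfl | hv
      · rw [h0]
        exact (cq_pc x).step_back (Or.inr (Or.inl hu))
      · have h1 : pp (ce x) * pp u * pp v = pp (ce x) * pp v :=
          Cls.tri ⟨Or.inl hu, h, Or.inl hv⟩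
        calc cq x * pp u * pp v = cq x * pp (ce x) * pp u * pp v := by rw [h0]
          _ = cq x * (pp (ce x) * pp u * pp v) := by simp only [mul_assoc]
          _ = cq x * pp (ce x) * pp v := by rw [h1, ← mul_assoc]
          _ = cq x * pp v := by rw [h0]

theorem cq_path {v : DV M} {q : Cls (dcx M)} (h : PC (dcx M) (oo M) v q) :
    ∀ x, Mem x v → q = cq x * pp v := by
  induction h with
  | base =>
    intro x hx
    have h1 : Mem (1 : Art M) (oo M) := Or.inl rfl
    have h2 : cq (1 : Art M) = pp (oo M) := by rw [cq, cp_one]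
    rw [cq_indep hx h1, h2]
    exact (Cls.stay _).symm
  | @step v w q h h' ih =>
    obtain ⟨x, h1, h2⟩ : ∃ x, Mem x v ∧ Mem x w := by
      rcases h' with rfl | h' | h'
      · obtain ⟨x, hx⟩ := exists_mem v
        exact ⟨x, hx, hx⟩
      · exact exists_common h'
      · obtain ⟨x, hx, hy⟩ := exists_common h'
        exact ⟨x, hy, hx⟩
    intro y hy
    rw [ih x h1]
    show cq x * pp v * pp w = _
    rw [cq_step h1 h2 h', cq_indep h2 hy]

/-- the Deligne complex is simply connected -/
theorem dcx_sc (M : CoxeterMatrix B) : (dcx M).SC := by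
  refine Pool.Agent.H34.BD.sc_of_base (oo M) ?_ ?_
  · intro v
    obtain ⟨x, hx⟩ := exists_mem v
    exact ⟨_, (cq_pc x).step (near_of_mem hx)⟩
  · intro q hq
    rw [cq_path hq 1 (Or.inl rfl)]
    have h2 : cq (1 : Art M) = pp (oo M) := by rw [cq, cp_one]
    rw [h2]
    exact Cls.stay _

end Pool.Agent.H56.DC
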