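import Pool.Agent.H56.DC.SC
import Pool.Agent.H59.DE.Defs

/-!
# The Deligne complex is a typed complex
-/

set_option autoImplicit false

namespace Pool.Agent.H56.DC

open Pool.Agent.H52.PAG Pool.Agent.H54.CX Pool.Agent.H59.DE DV

variable {B : Type} {M : CoxeterMatrix B}

/-- Conditions on the products of powers of two generators `σ_i`, `σ_j` with `M i j ≠ 0`: a power of `σ_i` which is a power
of `σ_j` is trivial, and if a product of four powers `σ_i, σ_j, σ_i, σ_j` is trivial then one of the factors is trivial.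
For the link of a point: there are no closed paths with two or four hyperedges. -/
structure Gir (M : CoxeterMatrix B) : Prop where
  two : ∀ i j, i ≠ j → M i j ≠ 0 → ∀ x ∈ par M {i}, x ∈ par M {j} → x = 1
  four : ∀ i j, i ≠ j → M i j ≠ 0 → ∀ x ∈ par M {i}, ∀ y ∈ par M {j}, ∀ z ∈ par M {i},
    ∀ w ∈ par M {j}, x * y * z * w = 1 → x = 1 ∨ y = 1 ∨ z = 1 ∨ w = 1

/-- every generator has at least two finite labels -/
def Deg (M : CoxeterMatrix B) : Prop :=
  ∀ i, ∃ j k, j ≠ k ∧ i ≠ j ∧ i ≠ k ∧ M i j ≠ 0 ∧ M i k ≠ 0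

/-- the type of a vertex -/
def tp : DV M → Set B
  | ce _ => ∅
  | hy i _ => {i}
  | pt T _ => T.1

theorem tp_smul (g : Art M) (v : DV M) : tp (g • v) = tp v := by
  cases v <;> rfl

theorem ty_of_tp {u v : DV M} (h : tp u = tp v) : ty u = ty v := by
  have key : ∀ (i : B) (T : Pr M), ¬ ({i} : Set B) = T.1 := by
    rintro i ⟨T, a, b, hab, hm, rfl⟩ h0
    have h1 : a ∈ ({i} : Set B) := by rw [h0]; exact Set.mem_insert _ _
    have h2 : b ∈ ({i} : Set B) := by rw [h0]; exact Set.mem_insert_of_mem _ rfl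
    exact hab ((Set.mem_singleton_iff.1 h1).trans (Set.mem_singleton_iff.1 h2).symm)
  have key2 : ∀ T : Pr M, ¬ (∅ : Set B) = T.1 := by
    rintro ⟨T, a, b, hab, hm, rfl⟩ h0
    have h1 : a ∈ (∅ : Set B) := by rw [h0]; exact Set.mem_insert _ _
    exact h1
  cases u with
  | ce a =>
    cases v with
    | ce b => rfl
    | hy i x => exact ((Set.singleton_ne_empty i) h.symm).elim
    | pt T x => exact (key2 T h).elim
  | hy i x =>
    cases v with
    | ce b => exact ((Set.singleton_ne_empty i) h).elim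
    | hy j y => rfl
    | pt T y => exact (key i T h).elim
  | pt T x =>
    cases v with
    | ce b => exact (key2 T h.symm).elim
    | hy j y => exact (key j T h.symm).elim
    | pt T y => rfl

/-- the cells -/
theorem exists_ce {v : DV M} (h : ty v = 0) : ∃ a, v = ce a := by
  cases v with
  | ce a => exact ⟨a, rfl⟩
  | hy i x => simp [ty] at h
  | pt T x => simp [ty] at h

/-- the hyperedges -/
theorem exists_hy {v : DV M} (h : ty v = 1) : ∃ i x, v = hy i x := by
  cases v with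
  | ce a => simp [ty] at h
  | hy i x => exact ⟨i, x, rfl⟩
  | pt T x => simp [ty] at h

/-- the points -/
theorem exists_pt {v : DV M} (h : ty v = 2) : ∃ T x, v = pt T x := by
  cases v with
  | ce a => simp [ty] at h
  | hy i x => simp [ty] at h
  | pt T x => exact ⟨T, x, rfl⟩

theorem edge_ce_hy {a : Art M} {i : B} {x : Art M ⧸ par M {i}} :
    (dcx M).Edge (ce a) (hy i x) ↔ x = QuotientGroup.mk a := by
  constructor
  · rintro (h | h)
    · exact h
    · exact h.elim
  · exact fun h => Or.inl h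

theorem edge_ce_pt {a : Art M} {T : Pr M} {x : Art M ⧸ par M T.1} :
    (dcx M).Edge (ce a) (pt T x) ↔ x = QuotientGroup.mk a := by
  constructor
  · rintro (h | h)
    · exact h
    · exact h.elim
  · exact fun h => Or.inl h

theorem edge_hy_pt {i : B} {x : Art M ⧸ par M {i}} {T : Pr M} {y : Art M ⧸ par M T.1} :
    (dcx M).Edge (hy i x) (pt T y) ↔
      i ∈ T.1 ∧ ∃ a : Art M, x = QuotientGroup.mk a ∧ y = QuotientGroup.mk a := by
  constructor
  · rintro (h | h)
    · exact h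
    · exact h.elim
  · exact fun h => Or.inl h

theorem mk_of_mk {T U : Set B} (h : T ⊆ U) {a b : Art M}
    (hab : (QuotientGroup.mk a : Art M ⧸ par M T) = QuotientGroup.mk b) :
    (QuotientGroup.mk a : Art M ⧸ par M U) = QuotientGroup.mk b :=
  QuotientGroup.eq.2 (par_mono h (QuotientGroup.eq.1 hab))

/-- the flags -/
theorem tri_iff {a : Art M} {i : B} {x : Art M ⧸ par M {i}} {T : Pr M} {y : Art M ⧸ par M T.1} :
    (dcx M).Tri (ce a) (hy i x) (pt T y) ↔ i ∈ T.1 ∧ x = QuotientGroup.mk a ∧ y = QuotientGroup.mk a := by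
  constructor
  · rintro ⟨h1, h2, h3⟩
    exact ⟨(edge_hy_pt.1 h2).1, edge_ce_hy.1 h1, edge_ce_pt.1 h3⟩
  · rintro ⟨h1, rfl, rfl⟩
    exact ⟨edge_ce_hy.2 rfl, edge_hy_pt.2 ⟨h1, a, rfl, rfl⟩, edge_ce_pt.2 rfl⟩

theorem len_eq (u v : DV M) (h : (dcx M).Edge u v) : (dcx M).len u v = L (ty u) (ty v) := by
  show lw (ty u + ty v) = L (ty u) (ty v)
  have h1 : ty u ≠ ty v := DV.Adj.ty_ne h
  have h2 := DV.ty_le u
  have h3 := DV.ty_le v
  generalize ty u = a at *
  generalize ty v = b at *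
  interval_cases a <;> interval_cases b <;> first | (exfalso; omega) | rfl

theorem pair_eq {T : Pr M} {i j : B} (hij : i ≠ j) (hi : i ∈ T.1) (hj : j ∈ T.1) : T.1 = {i, j} := by
  obtain ⟨T, a, b, hab, hM, rfl⟩ := T
  rcases hi with rfl | hi
  · rcases hj with rfl | hj
    · exact (hij rfl).elim
    · have hj : j = b := hj
      rw [hj]
  · have hi : i = b := hi
    rcases hj with rfl | hj
    · show ({j, b} : Set B) = {i, j}
      rw [hi, Set.pair_comm]
    · have hj : j = b := hj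
      exact (hij (hi.trans hj.symm)).elim

theorem pair_label {T : Pr M} {i j : B} (hij : i ≠ j) (hi : i ∈ T.1) (hj : j ∈ T.1) : M i j ≠ 0 := by
  have h := pair_eq hij hi hj
  obtain ⟨T, a, b, hab, hM, rfl⟩ := T
  have h1 : a ∈ ({i, j} : Set B) := by rw [← h]; exact Set.mem_insert _ _
  have h2 : b ∈ ({i, j} : Set B) := by rw [← h]; exact Set.mem_insert_of_mem _ rfl
  rcases h1 with h1 | h1
  · rcases h2 with h2 | h2
    · exact (hab (h1.trans h2.symm)).elim
    · have h2 : b = j := h2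
      rw [← h1, ← h2]; exact hM
  · have h1 : a = j := h1
    rcases h2 with h2 | h2
    · rw [M.symmetric, ← h1, ← h2]; exact hM
    · have h2 : b = j := h2
      exact (hab (h1.trans h2.symm)).elim

/-- two cells of a hyperedge -/
theorem exists_of_hc {a b : Art M} {i : B} {x : Art M ⧸ par M {i}} (ha : x = QuotientGroup.mk a)
    (hb : x = QuotientGroup.mk b) : a⁻¹ * b ∈ par M {i} :=
  QuotientGroup.eq.1 (ha.symm.trans hb)

/-- the cyclic path of four -/
theorem four_of {i j : B} (hM : Gir M) (hij : i ≠ j) (hm : M i j ≠ 0) {g₁ g₂ g₃ g₄ : Art M}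
    (h2 : g₁⁻¹ * g₂ ∈ par M {j}) (h3 : g₂⁻¹ * g₃ ∈ par M {i}) (h4 : g₃⁻¹ * g₄ ∈ par M {j})
    (h1 : g₄⁻¹ * g₁ ∈ par M {i}) : g₁ = g₂ ∨ g₂ = g₃ ∨ g₃ = g₄ ∨ g₄ = g₁ := by
  have e : (g₄⁻¹ * g₁) * (g₁⁻¹ * g₂) * (g₂⁻¹ * g₃) * (g₃⁻¹ * g₄) = 1 := by group
  rcases hM.four i j hij hm _ h1 _ h2 _ h3 _ h4 e with h | h | h | h
  · exact Or.inr (Or.inr (Or.inr (inv_mul_eq_one.1 h)))
  · exact Or.inl (inv_mul_eq_one.1 h)
  · exact Or.inr (Or.inl (inv_mul_eq_one.1 h))
  · exact Or.inr (Or.inr (Or.inl (inv_mul_eq_one.1 h)))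

/-- the Deligne complex is a typed complex -/
theorem dcx_tc (hM : Gir M) (hd : Deg M) : TC (dcx M) ty tp where
  kd_le := ty_le
  kd_ne x y h := DV.Adj.ty_ne h
  kd_τ x y h := ty_of_tp h
  len x y h := len_eq x y h
  fill g e p hg he hp h1 h2 := by
    obtain ⟨a, rfl⟩ := exists_ce hg
    obtain ⟨i, x, rfl⟩ := exists_hy he
    obtain ⟨T, y, rfl⟩ := exists_pt hp
    rw [edge_ce_hy] at h1
    obtain ⟨hi, b, h3, h4⟩ := edge_hy_pt.1 h2
    rw [tri_iff]
    refine ⟨hi, h1, ?_⟩
    rw [h4]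
    exact mk_of_mk (Set.singleton_subset_iff.2 hi) (h3.symm.trans h1)
  cell e p he hp h := by
    obtain ⟨i, x, rfl⟩ := exists_hy he
    obtain ⟨a, rfl⟩ := QuotientGroup.mk_surjective x
    exact ⟨ce a, rfl, edge_ce_hy.2 rfl⟩
  inj g x y hg hx hy hxy := by
    obtain ⟨a, rfl⟩ := exists_ce hg
    have hk := ty_of_tp hxy
    cases x with
    | ce b => exact (DV.Adj.ty_ne hx rfl).elim
    | hy i x =>
      cases y with
      | ce b => exact (DV.Adj.ty_ne hy rfl).elim
      | hy j y =>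
        have h1 : i = j := Set.singleton_injective hxy
        subst h1
        rw [edge_ce_hy] at hx hy
        rw [hx, hy]
      | pt T y => simp [ty] at hk
    | pt T x =>
      cases y with
      | ce b => exact (DV.Adj.ty_ne hy rfl).elim
      | hy j y => simp [ty] at hk
      | pt U y =>
        have h1 : T = U := Subtype.ext hxy
        subst h1
        rw [edge_ce_pt] at hx hy
        rw [hx, hy]
  two g p hg hp h := by
    obtain ⟨a, rfl⟩ := exists_ce hg
    obtain ⟨T, y, rfl⟩ := exists_pt hp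
    rw [edge_ce_pt] at h
    obtain ⟨i, j, hij, hm, hT⟩ := T.2
    have hi : i ∈ T.1 := by rw [hT]; exact Set.mem_insert _ _
    have hj : j ∈ T.1 := by rw [hT]; exact Set.mem_insert_of_mem _ rfl
    refine ⟨hy i (QuotientGroup.mk a), hy j (QuotientGroup.mk a), ?_, rfl, rfl, tri_iff.2 ⟨hi, rfl, h⟩,
      tri_iff.2 ⟨hj, rfl, h⟩, ?_⟩
    · intro e
      injection e with e1 e2
      exact hij e1
    · intro x hx
      have h1 := hx.1
      have h2 := hx.2.1
      cases x with
      | ce b => exact (DV.Adj.ty_ne h1 rfl).elim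
      | hy k x =>
        obtain ⟨hk, hx, -⟩ := tri_iff.1 hx
        rw [hT] at hk
        rcases hk with rfl | hk
        · left; rw [hx]
        · have hk : k = j := hk
          subst hk
          right; rw [hx]
      | pt U x => exact (DV.Adj.ty_ne h2 rfl).elim
  pts g e hg he h := by
    obtain ⟨a, rfl⟩ := exists_ce hg
    obtain ⟨i, x, rfl⟩ := exists_hy he
    rw [edge_ce_hy] at h
    obtain ⟨j, k, hjk, hij, hik, h1, h2⟩ := hd i
    refine ⟨pt ⟨{i, j}, i, j, hij, h1, rfl⟩ (QuotientGroup.mk a),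
      pt ⟨{i, k}, i, k, hik, h2, rfl⟩ (QuotientGroup.mk a), ?_, rfl, rfl,
      tri_iff.2 ⟨Set.mem_insert _ _, h, rfl⟩, tri_iff.2 ⟨Set.mem_insert _ _, h, rfl⟩⟩
    intro e
    injection e with e1 e2
    have e3 : ({i, j} : Set B) = {i, k} := congrArg Subtype.val e1
    have e4 : j ∈ ({i, k} : Set B) := by rw [← e3]; exact Set.mem_insert_of_mem _ rfl
    rcases e4 with e4 | e4
    · exact hij e4.symm
    · exact hjk e4
  lg g e e' p q hg he he' hp hq hee h1 h2 h3 h4 := by
    obtain ⟨a, rfl⟩ := exists_ce hg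
    obtain ⟨i, x, rfl⟩ := exists_hy he
    obtain ⟨j, x', rfl⟩ := exists_hy he'
    obtain ⟨T, y, rfl⟩ := exists_pt hp
    obtain ⟨U, z, rfl⟩ := exists_pt hq
    obtain ⟨hi, h5, h6⟩ := tri_iff.1 h1
    obtain ⟨hj, h7, -⟩ := tri_iff.1 h2
    obtain ⟨hi', -, h8⟩ := tri_iff.1 h3
    obtain ⟨hj', -, -⟩ := tri_iff.1 h4
    have hij : i ≠ j := by
      rintro rfl
      exact hee (by rw [h5, h7])
    have h9 : T = U := Subtype.ext ((pair_eq hij hi hj).trans (pair_eq hij hi' hj').symm)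
    subst h9
    rw [h6, h8]
  bip p e e' e'' hp he he' he'' h1 h2 h3 := by
    obtain ⟨T, y, rfl⟩ := exists_pt hp
    obtain ⟨i, x, rfl⟩ := exists_hy he
    obtain ⟨j, x', rfl⟩ := exists_hy he'
    obtain ⟨k, x'', rfl⟩ := exists_hy he''
    have hi := (edge_hy_pt.1 h1).1
    have hj := (edge_hy_pt.1 h2).1
    have hk := (edge_hy_pt.1 h3).1
    obtain ⟨a, b, -, -, hT⟩ := T.2
    rw [hT] at hi hj hk
    show ({i} : Set B) = {j} ∨ ({j} : Set B) = {k} ∨ ({i} : Set B) = {k}
    have hi : i = a ∨ i = b := hi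
    have hj : j = a ∨ j = b := hj
    have hk : k = a ∨ k = b := hk
    have key : i = j ∨ j = k ∨ i = k := by
      rcases hi with rfl | rfl <;> rcases hj with rfl | rfl <;> rcases hk with rfl | rfl <;> simp
    rcases key with h | h | h
    · left; rw [h]
    · right; left; rw [h]
    · right; right; rw [h]
  l2 p e e' g g' hp he he' hg hg' hee h1 h2 h3 h4 := by
    obtain ⟨a, rfl⟩ := exists_ce hg
    obtain ⟨b, rfl⟩ := exists_ce hg'
    obtain ⟨i, x, rfl⟩ := exists_hy he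
    obtain ⟨j, x', rfl⟩ := exists_hy he'
    obtain ⟨T, y, rfl⟩ := exists_pt hp
    obtain ⟨hi, h5, -⟩ := tri_iff.1 h1
    obtain ⟨hj, h6, -⟩ := tri_iff.1 h2
    obtain ⟨-, h7, -⟩ := tri_iff.1 h3
    obtain ⟨-, h8, -⟩ := tri_iff.1 h4
    have hij : i ≠ j := by
      rintro rfl
      exact hee (by rw [h5, h6])
    have h9 := hM.two i j hij (pair_label hij hi hj) _ (exists_of_hc h5 h7) (exists_of_hc h6 h8)
    rw [inv_mul_eq_one.1 h9]
  l4 p e₁ e₂ e₃ e₄ g₁ g₂ g₃ g₄ hp he₁ he₂ he₃ he₄ hg₁ hg₂ hg₃ hg₄ t1 t2 t3 t4 t5 t6 t7 t8 n1 n2 n3 n4 := by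
    obtain ⟨T, y, rfl⟩ := exists_pt hp
    obtain ⟨i₁, x₁, rfl⟩ := exists_hy he₁
    obtain ⟨i₂, x₂, rfl⟩ := exists_hy he₂
    obtain ⟨i₃, x₃, rfl⟩ := exists_hy he₃
    obtain ⟨i₄, x₄, rfl⟩ := exists_hy he₄
    obtain ⟨a₁, rfl⟩ := exists_ce hg₁
    obtain ⟨a₂, rfl⟩ := exists_ce hg₂
    obtain ⟨a₃, rfl⟩ := exists_ce hg₃
    obtain ⟨a₄, rfl⟩ := exists_ce hg₄
    obtain ⟨m1, u1, -⟩ := tri_iff.1 t1
    obtain ⟨m2, u2, -⟩ := tri_iff.1 t2
    obtain ⟨-, u3, -⟩ := tri_iff.1 t3
    obtain ⟨m3, u4, -⟩ := tri_iff.1 t4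
    obtain ⟨-, u5, -⟩ := tri_iff.1 t5
    obtain ⟨m4, u6, -⟩ := tri_iff.1 t6
    obtain ⟨-, u7, -⟩ := tri_iff.1 t7
    obtain ⟨-, u8, -⟩ := tri_iff.1 t8
    have h12 : i₁ ≠ i₂ := by
      rintro rfl
      exact n1 (by rw [u1, u2])
    have h23 : i₂ ≠ i₃ := by
      rintro rfl
      exact n2 (by rw [u3, u4])
    have h34 : i₃ ≠ i₄ := by
      rintro rfl
      exact n3 (by rw [u5, u6])
    have hT := pair_eq h12 m1 m2
    have h31 : i₃ = i₁ := by
      rw [hT] at m3
      rcases m3 with h | h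
      · exact h
      · exact (h23 h.symm).elim
    have h42 : i₄ = i₂ := by
      rw [hT] at m4
      rcases m4 with h | h
      · exact (h34 (h31.trans h.symm)).elim
      · exact h
    subst h31
    subst h42
    rcases four_of hM h12 (pair_label h12 m1 m2) (exists_of_hc u2 u3) (exists_of_hc u4 u5)
        (exists_of_hc u6 u7) (exists_of_hc u8 u1) with h | h | h | h
    · left
      subst h
      rw [u1, u4]
    · right
      subst h
      rw [u3, u6]
    · left
      subst h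
      rw [u5, u8]
    · right
      subst h
      rw [u2, u7]

theorem dcx_tact : TAct (dcx M) ty tp (Art M) where
  inv := dcx_inv
  type := tp_smul
  free g c hc h := by
    obtain ⟨a, rfl⟩ := exists_ce hc
    have h1 : ce (g * a) = ce a := h
    injection h1 with h1
    exact mul_eq_right.1 h1

theorem dcx_fin [Finite B] : FinCell (dcx M) ty := by
  intro c hc
  obtain ⟨a, rfl⟩ := exists_ce hc
  have : Finite (Pr M) := Subtype.finite
  have h1 : (Set.range (fun i : B => (hy i (QuotientGroup.mk a) : DV M)) ∪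
      Set.range (fun T : Pr M => (pt T (QuotientGroup.mk a) : DV M))).Finite :=
    (Set.finite_range _).union (Set.finite_range _)
  refine h1.subset ?_
  intro x hx
  cases x with
  | ce b => exact (DV.Adj.ty_ne hx rfl).elim
  | hy i x =>
    have hx : (dcx M).Edge (ce a) (hy i x) := hx
    rw [edge_ce_hy] at hx
    exact Or.inl ⟨i, by rw [hx]⟩
  | pt T x =>
    have hx : (dcx M).Edge (ce a) (pt T x) := hx
    rw [edge_ce_pt] at hx
    exact Or.inr ⟨T, by rw [hx]⟩

end Pool.Agent.H56.DC
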