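import Pool.Agent.H52.PAG.Defs
import Pool.Agent.H34.BD.SC

/-!
# The Deligne complex of an Artin group (two-dimensional part)

Vertices: the elements of the Artin group `A` (cells), the cosets of `⟨σ_i⟩` (hyperedges) and the cosets of `⟨σ_i, σ_j⟩`
for `M i j ≠ 0` (points).  Two vertices of different kind are adjacent if one coset is contained in the other; triangles:
three pairwise adjacent vertices.  Lengths: cell - hyperedge `1`, cell - point `2`, hyperedge - point `√3` (angles `π/3` at
the cell, `π/2` at the hyperedge, `π/6` at the point).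
-/

set_option autoImplicit false

namespace Pool.Agent.H56.DC

open Pool.Agent.H52.PAG Pool.Agent.H54.CX

variable {B : Type} (M : CoxeterMatrix B)

/-- the subgroup generated by the generators in `T` -/
def par (T : Set B) : Subgroup (Art M) := Subgroup.closure (gen M '' T)

/-- the pairs `{i, j}` with `M i j ≠ 0` -/
def Pr : Type := {T : Set B // ∃ i j, i ≠ j ∧ M i j ≠ 0 ∧ T = {i, j}}

/-- the vertices of the Deligne complex -/
inductive DV : Type
  | ce (a : Art M) : DV
  | hy (i : B) (x : Art M ⧸ par M {i}) : DV
  | pt (T : Pr M) (x : Art M ⧸ par M T.1) : DV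

variable {M}

theorem gen_mem {T : Set B} {i : B} (h : i ∈ T) : gen M i ∈ par M T :=
  Subgroup.subset_closure ⟨i, h, rfl⟩

theorem par_mono {T U : Set B} (h : T ⊆ U) : par M T ≤ par M U :=
  Subgroup.closure_mono (Set.image_mono h)

theorem mem_par_singleton {i : B} {x : Art M} : x ∈ par M {i} ↔ ∃ k : ℤ, gen M i ^ k = x := by
  rw [par, Set.image_singleton, Subgroup.mem_closure_singleton]

namespace DV

instance : MulAction (Art M) (DV M) where
  smul g v := match v with
    | ce a => ce (g * a)
    | hy i x => hy i (g • x)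
    | pt T x => pt T (g • x)
  one_smul v := by
    cases v with
    | ce a => exact congrArg ce (one_mul a)
    | hy i x => exact congrArg (hy i) (one_smul (Art M) x)
    | pt T x => exact congrArg (pt T) (one_smul (Art M) x)
  mul_smul g h v := by
    cases v with
    | ce a => exact congrArg ce (mul_assoc g h a)
    | hy i x => exact congrArg (hy i) (mul_smul g h x)
    | pt T x => exact congrArg (pt T) (mul_smul g h x)

theorem smul_ce (g a : Art M) : g • (ce a : DV M) = ce (g * a) := rfl

theorem smul_hy (g : Art M) (i : B) (x : Art M ⧸ par M {i}) : g • (hy i x : DV M) = hy i (g • x) := rfl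

theorem smul_pt (g : Art M) (T : Pr M) (x : Art M ⧸ par M T.1) : g • (pt T x : DV M) = pt T (g • x) := rfl

/-- the kind of a vertex -/
def ty : DV M → ℕ
  | ce _ => 0
  | hy _ _ => 1
  | pt _ _ => 2

theorem ty_smul (g : Art M) (v : DV M) : ty (g • v) = ty v := by
  cases v <;> rfl

/-- the coset `u` is contained in the coset `v` and has a smaller kind -/
def Inc : DV M → DV M → Prop
  | ce a, hy _ x => x = QuotientGroup.mk a
  | ce a, pt _ y => y = QuotientGroup.mk a
  | hy i x, pt T y => i ∈ T.1 ∧ ∃ a : Art M, x = QuotientGroup.mk a ∧ y = QuotientGroup.mk a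
  | _, _ => False

theorem Inc.ty_lt {u v : DV M} (h : Inc u v) : ty u < ty v := by
  cases u <;> cases v <;> simp only [Inc, ty] at * <;> first | exact h.elim | omega

theorem Inc.ty_le {u v : DV M} (h : Inc u v) : ty v ≤ 2 ∧ ty u < ty v := by
  refine ⟨?_, h.ty_lt⟩
  cases v <;> simp [ty]

theorem smul_mk (g a : Art M) (H : Subgroup (Art M)) :
    g • (QuotientGroup.mk a : Art M ⧸ H) = QuotientGroup.mk (g * a) := rfl

theorem Inc.smul (g : Art M) {u v : DV M} (h : Inc u v) : Inc (g • u) (g • v) := by
  cases u with
  | ce a =>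
    cases v with
    | ce b => exact h.elim
    | hy i x =>
      have h : x = QuotientGroup.mk a := h
      subst h
      exact rfl
    | pt T x =>
      have h : x = QuotientGroup.mk a := h
      subst h
      exact rfl
  | hy i x =>
    cases v with
    | ce b => exact h.elim
    | hy j y => exact h.elim
    | pt T y =>
      obtain ⟨hi, a, rfl, rfl⟩ := h
      exact ⟨hi, g * a, rfl, rfl⟩
  | pt T x => cases v <;> exact h.elim

/-- adjacent: one of the cosets contains the other -/
def Adj (u v : DV M) : Prop := Inc u v ∨ Inc v u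

theorem Adj.symm {u v : DV M} (h : Adj u v) : Adj v u := Or.symm h

theorem Adj.ty_ne {u v : DV M} (h : Adj u v) : ty u ≠ ty v := by
  rcases h with h | h <;> have := h.ty_lt <;> omega

theorem Adj.smul (g : Art M) {u v : DV M} (h : Adj u v) : Adj (g • u) (g • v) :=
  h.imp (Inc.smul g) (Inc.smul g)

theorem ty_le (v : DV M) : ty v ≤ 2 := by
  cases v <;> simp [ty]

end DV

/-- the lengths: `1`, `2`, `√3` -/
noncomputable def lw : ℕ → ℝ
  | 1 => 1
  | 2 => 2
  | _ => √3

theorem lw_pos (n : ℕ) : 0 < lw n := by
  unfold lw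
  split <;> positivity

variable (M) in
/-- the Deligne complex -/
noncomputable def dcx : Cpx (DV M) where
  Edge := DV.Adj
  Tri u v w := DV.Adj u v ∧ DV.Adj v w ∧ DV.Adj u w
  len u v := lw (DV.ty u + DV.ty v)
  ne u v h e := h.ty_ne (by rw [e])
  symm u v h := h.symm
  edge u v w h := h.1
  rot u v w h := ⟨h.2.1, h.2.2.symm, h.1.symm⟩
  swap u v w h := ⟨h.1.symm, h.2.2, h.2.1⟩
  len_symm u v _ := by rw [add_comm]
  pos u v _ := lw_pos _
  lt u v w h := by
    have h1 := h.1.ty_ne
    have h2 := h.2.1.ty_ne
    have h3 := h.2.2.ty_ne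
    have h4 := DV.ty_le u
    have h5 := DV.ty_le v
    have h6 := DV.ty_le w
    have h7 : (1 : ℝ) < √3 := by
      rw [Real.lt_sqrt (by norm_num)]; norm_num
    have h8 : √3 < 2 := by
      rw [Real.sqrt_lt' (by norm_num)]; norm_num
    generalize DV.ty u = a at *
    generalize DV.ty v = b at *
    generalize DV.ty w = c at *
    interval_cases a <;> interval_cases b <;> interval_cases c <;>
      first
      | (exfalso; omega)
      | (norm_num [lw] <;> linarith)

theorem dcx_inv : (dcx M).Inv (Art M) where
  edge g _ _ h := h.smul g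
  tri g _ _ _ h := ⟨h.1.smul g, h.2.1.smul g, h.2.2.smul g⟩
  len g u v _ := by
    show lw (DV.ty (g • u) + DV.ty (g • v)) = lw (DV.ty u + DV.ty v)
    rw [DV.ty_smul, DV.ty_smul]

end Pool.Agent.H56.DC
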