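import Pool.Agent.H56.DC.TCI
import Pool.Agent.H71.DA.Cyc

/-!
# Artin groups of large type satisfy the girth conditions
-/

set_option autoImplicit false

namespace Pool.Agent.H56.DC

open Pool.Agent.H52.PAG Pool.Agent.H71.DA

variable {B : Type}

/-- large type: all labels are at least three (or infinite) -/
def Large (M : CoxeterMatrix B) : Prop := ∀ i j, i ≠ j → M i j = 0 ∨ 3 ≤ M i j

theorem gir_of_large {M : CoxeterMatrix B} (h : Large M) : Gir M where
  two i j hij hm x hx hy := by
    have h3 : 3 ≤ M i j := (h i j hij).resolve_left hm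
    obtain ⟨k, rfl⟩ := mem_par_singleton.1 hx
    obtain ⟨l, hl⟩ := mem_par_singleton.1 hy
    have h1 : gen M i ^ k * gen M j ^ (-l) = 1 := by
      rw [zpow_neg, hl, mul_inv_cancel]
    rw [(one_word2 M h3 h1).1, zpow_zero]
  four i j hij hm x hx y hy z hz w hw e := by
    have h3 : 3 ≤ M i j := (h i j hij).resolve_left hm
    obtain ⟨a, rfl⟩ := mem_par_singleton.1 hx
    obtain ⟨b, rfl⟩ := mem_par_singleton.1 hy
    obtain ⟨c, rfl⟩ := mem_par_singleton.1 hz
    obtain ⟨d, rfl⟩ := mem_par_singleton.1 hw
    have h1 := one_word4 M h3 e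
    rcases mul_eq_zero.1 h1 with h1 | h1
    · rcases mul_eq_zero.1 h1 with h1 | h1
      · rcases mul_eq_zero.1 h1 with h1 | h1
        · left; rw [h1, zpow_zero]
        · right; left; rw [h1, zpow_zero]
      · right; right; left; rw [h1, zpow_zero]
    · right; right; right; rw [h1, zpow_zero]

end Pool.Agent.H56.DC
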